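import Pool.Agent.Helper72.LSr.N2

/-!
# NUM0 (piece LR-N2)
-/

namespace Pool.Agent.Helper91.LSr

open Finset
open scoped Classical
open Pool.Agent.Helper72.LSr

theorem Vl_empty_le (k : ℕ) (n m : ℤ) (hm : m ≤ 0) (i : ℕ) :
    Vl k 0 0 (i + 1) n m ≤ 0 := by
  rcases i with _ | i
  · rw [Vl_one]; exact hm
  · unfold Vl
    rw [show i + 1 + 1 + 2 = (i + 2) + 2 from rfl, show i + 1 + 1 + 1 = (i + 1) + 2 from rfl,
      show i + 1 + 1 = i + 2 from rfl, es_empty, es_empty, es_empty]
    simp

/-- (NUM0) valid lines are nonpositive for `m ≤ 0` -/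
theorem num0 (k A B : ℕ) (hk : 1 ≤ k) (n m : ℤ) (hm : m ≤ 0)
    (hr : 0 ≤ rho k A B n m) (hg : 0 ≤ gg k A B n m) (i : ℕ) :
    Vl k A B (i + 1) n m ≤ 0 := by
  obtain ⟨s, hs⟩ : ∃ s, s = A + B := ⟨_, rfl⟩
  induction s generalizing k A B with
  | zero =>
    have hA : A = 0 := by omega
    have hB : B = 0 := by omega
    subst hA; subst hB
    exact Vl_empty_le k n m hm i
  | succ s ih =>
    rcases le_or_gt (nu k A B n) (k : ℤ) with h | h
    · obtain ⟨k', A', B', hk', hAB, hr', hg', hV⟩ :=
        neg_step k A B hk (by omega) n m hr hg h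
      exact (hV i).trans (ih k' A' B' hk' hr' hg' (by omega))
    · exfalso
      have hE0 : (0 : ℤ) ≤ EE k A B := EE_nonneg k A B
      have he := es_nonneg k A B 3
      have hk1 : (1 : ℤ) ≤ k := by exact_mod_cast hk
      have h1 : (0 : ℤ) ≤ nu k A B n - k - 1 := by linarith
      have h2 : (0 : ℤ) ≤ (k + 1) * (nu k A B n - k - 1) := by positivity
      have hth : 0 ≤ th k A B n m := by unfold rho at hr; linarith
      have hmeq : m = es k A B 3 + nu k A B n * EE k A B + th k A B n m := by unfold th; ring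
      have hE1 : (1 : ℤ) ≤ EE k A B := by
        unfold EE
        have : (1 : ℤ) ≤ A + B := by exact_mod_cast (show 1 ≤ A + B by omega)
        have hA : (0 : ℤ) ≤ A := by positivity
        have hB : (0 : ℤ) ≤ B := by positivity
        nlinarith
      have h3 : (0 : ℤ) < nu k A B n * EE k A B := by
        apply mul_pos <;> linarith
      linarith

end Pool.Agent.Helper91.LSr
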