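import Pool.Agent.Helper72.LSr.T2
import Pool.Agent.Helper72.LSr.Num

/-!
# Section 6: LR-M1
-/

namespace Pool.Agent.Helper91.LSr

open Finset
open scoped Classical
open Pool.Agent.Helper72.LSr

variable {V : Type} {j : ℕ} {G : SimpleGraph V} {S : Finset V} {k A B : ℕ} {w : V}


/-! ### LR-M1 -/

theorem ml_L (h : ML V j G S k A B w) : 0 ≤ (Phi k A B (j + 2) G (nb G S w)) ∧ 0 ≤ (Phi k A B (j + 1) G (nb G S w)) := by
  have hlt : (nb G S w).card < S.card := by
    apply card_lt_card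
    rw [ssubset_iff_of_subset (nb_subset G S w)]
    exact ⟨w, h.hw, not_mem_nb_self G S w⟩
  have e1 := gS_nb G S k A B w
  have e2 := rS_nb G S k A B w
  have hE := h.hE w h.hw
  have hY := h.hY
  have hm : (0 : ℤ) ≤ (max (-(rS k (A + 1) B G S)) 0) := le_max_right _ _
  constructor
  · exact Phi_nonneg (fun m => h.th2 _ m hlt) h.hk (by linarith) (by linarith)
  · exact Phi_nonneg (fun m => h.th1 _ m) h.hk (by linarith) (by linarith)

theorem ml_con (h : ML V j G S k A B w) {u : V} {R : Finset V} (hu : u ∈ S) (hR : R ⊆ nb G S u) :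
    0 ≤ (Dv k (A + 1) B G S) w * con k A B j G S u R + (es k A B (j + 1)) * ((Yv k (A + 1) B G S) w * (Dv k (A + 1) B G S) u - (Dv k (A + 1) B G S) w * (Yv k (A + 1) B G S) u) := by
  have hm : (0 : ℤ) ≤ (max (-(rS k (A + 1) B G S)) 0) := le_max_right _ _
  have hDw := h.hD w h.hw
  have hDu := h.hD u hu
  have hEu := h.hE u hu
  have hY := h.hY
  have hmax := h.hmax u hu
  have hl : (0 : ℤ) ≤ (es k A B (j + 1)) := es_nonneg _ _ _ _
  have hs : 0 ≤ (sq k (A + 1) B G S) u R := by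
    unfold Pool.Agent.Helper72.LSr.sq
    have h1 : 0 ≤ ∑ x ∈ R, (cv k (A + 1) B G S) u x := by
      apply sum_nonneg
      intro x hx
      have := (mem_nb G).1 (hR hx)
      exact h.hc u hu x this.1 this.2
    have h2 := K_nonneg G R 2
    linarith
  have h3 := con_ge_min h.th1 h.hk hu hR hs (by linarith) (by linarith)
  have h4 : (Dv k (A + 1) B G S) w * ((es k A B (j + 1)) * min ((sq k (A + 1) B G S) u R) ((Yv k (A + 1) B G S) u)) ≤ (Dv k (A + 1) B G S) w * con k A B j G S u R :=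
    mul_le_mul_of_nonneg_left h3 (by linarith)
  have h5 : 0 ≤ (Dv k (A + 1) B G S) w * ((es k A B (j + 1)) * min ((sq k (A + 1) B G S) u R) ((Yv k (A + 1) B G S) u)) + (es k A B (j + 1)) * ((Yv k (A + 1) B G S) w * (Dv k (A + 1) B G S) u - (Dv k (A + 1) B G S) w * (Yv k (A + 1) B G S) u) := by
    rcases le_total ((sq k (A + 1) B G S) u R) ((Yv k (A + 1) B G S) u) with hle | hle
    · rw [min_eq_left hle]
      have h6 : 0 ≤ (Dv k (A + 1) B G S) w * (sq k (A + 1) B G S) u R := mul_nonneg (by linarith) hs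
      have h7 : 0 ≤ (es k A B (j + 1)) * ((Dv k (A + 1) B G S) w * (sq k (A + 1) B G S) u R + ((Yv k (A + 1) B G S) w * (Dv k (A + 1) B G S) u - (Yv k (A + 1) B G S) u * (Dv k (A + 1) B G S) w)) :=
        mul_nonneg hl (by linarith)
      linarith
    · rw [min_eq_right hle]
      have h6 : 0 ≤ (Yv k (A + 1) B G S) w * (Dv k (A + 1) B G S) u := mul_nonneg (by linarith) (by linarith)
      have h7 : 0 ≤ (es k A B (j + 1)) * ((Yv k (A + 1) B G S) w * (Dv k (A + 1) B G S) u) := mul_nonneg hl h6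
      linarith
  linarith

theorem ml_main (h : ML V j G S k A B w) :
    (Dv k (A + 1) B G S) w * ((- Phi k (A + 1) B (j + 2) G S) + (Phi k A B (j + 2) G (nb G S w)) + (Phi k A B (j + 1) G (nb G S w))) ≤ (es k A B (j + 1)) * (Yv k (A + 1) B G S) w * (Dv k (A + 1) B G S w - Yv k (A + 1) B G S w - rS k (A + 1) B G S - K G (NH G S w) 2) ∧ 1 ≤ (es k A B (j + 1)) ∧ 1 + (max (-(rS k (A + 1) B G S)) 0) ≤ (Dv k (A + 1) B G S w - Yv k (A + 1) B G S w - rS k (A + 1) B G S - K G (NH G S w) 2) := by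
  obtain ⟨f, hf, -⟩ := exists_order (NH G S w) (fun v => Dv k (A + 1) B G S v)
  have h1 := id_one' (G := G) (S := S) h.hw k A B j f hf
  have hsum : 0 ≤ ∑ u ∈ NH G S w, ((Dv k (A + 1) B G S) w * con k A B j G S u (Qf G (NH G S w) f u)
      + (es k A B (j + 1)) * ((Yv k (A + 1) B G S) w * (Dv k (A + 1) B G S) u - (Dv k (A + 1) B G S) w * (Yv k (A + 1) B G S) u)) := by
    apply sum_nonneg
    intro u hu
    have huS : u ∈ S := by
      unfold NH at hu
      exact (mem_filter.1 hu).1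
    apply ml_con h huS
    intro x hx
    unfold Qf at hx
    rw [mem_filter] at hx
    rw [mem_nb]
    refine ⟨?_, hx.2.1⟩
    have := hx.1
    unfold NH at this
    exact (mem_filter.1 this).1
  rw [sum_add_distrib, ← mul_sum, ← mul_sum] at hsum
  have hmain : (Dv k (A + 1) B G S) w * ((- Phi k (A + 1) B (j + 2) G S) + (Phi k A B (j + 2) G (nb G S w)) + (Phi k A B (j + 1) G (nb G S w))) ≤ (es k A B (j + 1)) * (Yv k (A + 1) B G S) w * (Dv k (A + 1) B G S w - Yv k (A + 1) B G S w - rS k (A + 1) B G S - K G (NH G S w) 2) := by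
    rw [← h1]
    linarith
  obtain ⟨hPL, hkap⟩ := ml_L h
  have hm : (0 : ℤ) ≤ (max (-(rS k (A + 1) B G S)) 0) := le_max_right _ _
  have hDw := h.hD w h.hw
  have hEw := h.hE w h.hw
  have hY := h.hY
  have hQ := h.hQ
  have hl : (0 : ℤ) ≤ (es k A B (j + 1)) := es_nonneg _ _ _ _
  have hlm : (0 : ℤ) ≤ (es k A B (j + 1)) * (max (-(rS k (A + 1) B G S)) 0) := mul_nonneg hl hm
  have h2 : (Dv k (A + 1) B G S) w * (1 + (es k A B (j + 1)) * (max (-(rS k (A + 1) B G S)) 0)) ≤ (Dv k (A + 1) B G S) w * ((- Phi k (A + 1) B (j + 2) G S) + (Phi k A B (j + 2) G (nb G S w)) + (Phi k A B (j + 1) G (nb G S w))) :=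
    mul_le_mul_of_nonneg_left (by linarith) (by linarith)
  have h3 : (Dv k (A + 1) B G S) w * (1 + (es k A B (j + 1)) * (max (-(rS k (A + 1) B G S)) 0)) ≤ (es k A B (j + 1)) * (Yv k (A + 1) B G S) w * (Dv k (A + 1) B G S w - Yv k (A + 1) B G S w - rS k (A + 1) B G S - K G (NH G S w) 2) := h2.trans hmain
  have hlam : 1 ≤ (es k A B (j + 1)) := by
    by_contra hc
    have h0 : (es k A B (j + 1)) = 0 := by omega
    rw [h0] at h3
    simp only [zero_mul, add_zero, mul_one] at h3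
    linarith
  refine ⟨hmain, hlam, ?_⟩
  by_contra hc
  have hZ : (Dv k (A + 1) B G S w - Yv k (A + 1) B G S w - rS k (A + 1) B G S - K G (NH G S w) 2) ≤ (max (-(rS k (A + 1) B G S)) 0) := by omega
  have h4 : (es k A B (j + 1)) * (Yv k (A + 1) B G S) w * (Dv k (A + 1) B G S w - Yv k (A + 1) B G S w - rS k (A + 1) B G S - K G (NH G S w) 2) ≤ (es k A B (j + 1)) * (Yv k (A + 1) B G S) w * (max (-(rS k (A + 1) B G S)) 0) :=
    mul_le_mul_of_nonneg_left hZ (mul_nonneg hl (by linarith))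
  have h5 : (es k A B (j + 1)) * (max (-(rS k (A + 1) B G S)) 0) * (Yv k (A + 1) B G S) w ≤ (es k A B (j + 1)) * (max (-(rS k (A + 1) B G S)) 0) * (Dv k (A + 1) B G S) w :=
    mul_le_mul_of_nonneg_left (by linarith) hlm
  linarith

end Pool.Agent.Helper91.LSr
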